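import Pool.Agent.Helper90.UN.Goals
import Pool.Agent.Helper97.Nag.All1
import Pool.Agent.Helper97.Nag.Final
import Pool.Agent.Helper66.SB.Final

/-!
Project UN (MP_d3128a_ag), packet SQC: the square case.
-/

set_option autoImplicit false

noncomputable section

namespace Pool.Agent.Helper9.UN.SQC

open Module Pool.Agent.Helper97 Pool.Agent.Helper97.Nag Pool.Agent.Helper90.UN

/-- The square case, degrees `d ≥ k m`. -/
theorem zz_of_sq (u k m d : ℕ) (hu : u = k ^ 2) (hu1 : 1 ≤ u) (hk : k * m ≤ d) :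
    Pool.Agent.Helper66.SB.ZZ (Fin u) (fun _ => m) d := by
  have hk1 : 1 ≤ k := by
    by_contra hc
    have h0 : k = 0 := by omega
    subst h0
    simp at hu
    omega
  have h := Pool.Agent.Helper66.SB.final 0 u 0 k (d - k * m) m (fun i => i.elim0)
    (fun i => i.elim0) (fun _ => m)
    (fun I _ => by
      have hI : I = ∅ := Subsingleton.elim _ _
      subst hI
      simp)
    (by simp; omega) (by simp [hu]) hu1 (fun _ => le_rfl)
    (Or.inl ⟨Or.inl (by simp), Or.inl fun _ => Nat.le_succ m⟩)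
  have hd : d - k * m + m * k = d := by
    rw [Nat.mul_comm m k]
    omega
  rw [hd] at h
  refine Pool.Agent.Helper46.SB.gTR (Fin 0 ⊕ Fin u ⊕ Fin 0) (Fin u)
    ((Equiv.emptySum (Fin 0) (Fin u ⊕ Fin 0)).trans (Equiv.sumEmpty (Fin u) (Fin 0)))
    (fun _ => m) d ?_
  have e : (fun _ : Fin 0 ⊕ Fin u ⊕ Fin 0 => m) =
      Sum.elim (fun i : Fin 0 => (i.elim0 : ℕ) + m * (i.elim0 : ℕ))
        (Sum.elim (fun _ : Fin u => m) fun _ : Fin 0 => 1) := by
    funext i
    rcases i with i | l | t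
    · exact i.elim0
    · rfl
    · exact t.elim0
  rw [e]
  exact h

theorem t : S_SQC := by
  intro n m d hn hsq
  obtain ⟨k, hk⟩ := hsq
  rcases Nat.lt_or_ge d (k * m) with h | h
  · have hm : 1 ≤ m := by
      by_contra hc
      have h0 : m = 0 := by omega
      subst h0
      simp at h
    have hsum : ∑ i : Fin n, (fun _ : Fin n => m) i = n * m := by simp
    have h1 : n * d ^ 2 ≤ (∑ i : Fin n, (fun _ : Fin n => m) i) ^ 2 := by
      rw [hsum]
      have h2 : d ^ 2 ≤ (k * m) ^ 2 := Nat.pow_le_pow_left h.le 2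
      calc n * d ^ 2 ≤ n * (k * m) ^ 2 := Nat.mul_le_mul_left n h2
        _ = (n * m) ^ 2 := by rw [hk]; ring
    have hpos : 1 ≤ ∑ i : Fin n, (fun _ : Fin n => m) i := by
      rw [hsum]
      exact Nat.mul_pos (by omega) hm
    obtain ⟨G, hG0, hG⟩ := nagataC nGoals n d (fun _ => m) hn h1 hpos
    have h2 := arith1 n d (fun _ => m) hn h1 hpos
    refine ⟨G, hG0, fun P _ hP => ?_⟩
    have h3 := hG P hP
    have h4 : ((d + 2).choose 2 : ℤ) ≤ n * ((m + 1).choose 2 : ℤ) := by
      have h5 : ∑ i : Fin n, ((fun _ : Fin n => m) i + 1).choose 2 = n * (m + 1).choose 2 := by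
        simp
      rw [h5] at h2
      exact_mod_cast h2
    rw [max_eq_right (by linarith)]
    exact_mod_cast h3
  · obtain ⟨G, hG0, hG⟩ := zz_of_sq n k m d (by rw [hk]; ring) (by omega) h
    refine ⟨G, hG0, fun P hP0 hP => ?_⟩
    have h3 := hG P hP0 hP
    have h5 : ∑ i : Fin n, (Nat.choose ((fun _ : Fin n => m) i + 1) 2 : ℤ) =
        n * (Nat.choose (m + 1) 2 : ℤ) := by
      simp
    rw [← h5]
    exact h3

end Pool.Agent.Helper9.UN.SQC
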